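import Mathlib
import Pool.Agent.Q29.DigDir
import Pool.Agent.Q29.Z23

/-!
# The digits of the numbers `(q ζ(2) ζ(3) + c ζ(4) + b_1 t_1 + … + b_r t_r) / ζ(2)`

A relation `ζ(2) ζ(3) = a ζ(2) + b ζ(3) + c ζ(4) + d ζ(5)` with rational `a, b, c, d` means that the number
`(ζ(2) ζ(3) - b ζ(3) - c ζ(4) - d ζ(5)) / ζ(2)` is rational, hence that the digits of an integer multiple
`x = (q ζ(2) ζ(3) + b' ζ(3) + c' ζ(4) + d' ζ(5)) / ζ(2)`, `q ≠ 0`, of it satisfy a linear recurrence of bounded order (in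
every base, for every length). Let `t_1, …, t_r` be arbitrary real numbers, for instance `r = 2` and `t = (ζ(3), ζ(5))`. We
show that at each scale the integer vectors `(q, c, b_1, …, b_r)`, of heights up to a power of the scale, for which the
number above has digits of small linear complexity in at least one base lie in a space of dimension at most `r` (the space
of all vectors has dimension `r + 2`), with constants which do not depend on the `t_j`.

The proof uses the measure of linear independence of `1, ζ(2), ζ(3)` with the exponent `227` (`Pool/Agent/TH120/HM/`), the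
product inequality for near relations (`Pool/Agent/TH550/NRZ/Elim.lean`) and the approximations given by a short recurrence
of the digits, uniformly in the base (`Pool/Agent/Q29/DigDir.lean`).
-/

set_option autoImplicit false

namespace Pool.Agent.Results.MP_524521_nt.DigitsOfForms

open Finset

/-- the `i`-th digit of `x` after the point in base `g` -/
noncomputable def digit (g : ℕ) (x : ℝ) (i : ℕ) : ℤ := ⌊x * (g : ℝ) ^ i⌋ % (g : ℤ)

/-- the linear complexity of the first `L` digits of `x` in base `g`: the least `m` such that for some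
rational numbers `c_0, …, c_(m-1)` one has `s_(i+m) = c_0 s_i + … + c_(m-1) s_(i+m-1)` for
`1 ≤ i ≤ L - m`, where `s_i` is the `i`-th digit -/
noncomputable def complexity (g : ℕ) (x : ℝ) (L : ℕ) : ℕ :=
  sInf {m | ∃ c : ℕ → ℚ, ∀ i : ℕ, 1 ≤ i → i + m ≤ L →
    (digit g x (i + m) : ℚ) = ∑ j ∈ range m, c j * (digit g x (i + j) : ℚ)}

/-- the function `m + C √((m+1) log (m+2))` -/
noncomputable def F (C : ℝ) (m : ℕ) : ℝ :=
  m + C * Real.sqrt (((m : ℝ) + 1) * Real.log ((m : ℝ) + 2))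

/-- `ζ(s)` for integers `s ≥ 2` -/
noncomputable def zeta (s : ℕ) : ℝ := ∑' n : ℕ, 1 / ((n : ℝ) + 1) ^ s

/-- the number `(q ζ(2) ζ(3) + c ζ(4) + b_1 t_1 + … + b_r t_r) / ζ(2)` -/
noncomputable def value {r : ℕ} (t : Fin r → ℝ) (q c : ℤ) (b : Fin r → ℤ) : ℝ :=
  (q * (zeta 2 * zeta 3) + c * zeta 4 + ∑ j, (b j : ℝ) * t j) / zeta 2

/-- The integer vectors `(q_k, c_k, b_k)` of `ℤ ^ (r + 2)` are linearly independent. -/
def Independent {r : ℕ} (q c : Fin (r + 1) → ℤ) (b : Fin (r + 1) → Fin r → ℤ) : Prop :=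
  LinearIndependent ℤ fun k => (q k, c k, b k)

/-- the measure for `1, ζ(3), (2/5) ζ(2)` -/
theorem meas' : ∃ c : ℝ, 0 < c ∧ Pool.Agent.W472.AC.Meas
    (Fin.cons 1 (![zeta 3, 2 / 5 * zeta 2] : Fin 2 → ℝ) : Fin (2 + 1) → ℝ) 227 c := by
  obtain ⟨c, hc, h⟩ := Pool.Agent.Q29.Z23.meas
  refine ⟨c, hc, fun a ha H hH hb => ?_⟩
  have h1 := h ![a 1, a 0, a 2] (fun h0 => ha (by
    have e0 := congrFun h0 0
    have e1 := congrFun h0 1
    have e2 := congrFun h0 2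
    funext i
    fin_cases i
    · exact e1
    · exact e0
    · exact e2)) H hH (fun j => by
    fin_cases j
    · exact hb 1
    · exact hb 0
    · exact hb 2)
  refine h1.trans (le_of_eq ?_)
  congr 2
  rw [Fin.sum_univ_three, Fin.sum_univ_three]
  show (a 1 : ℝ) * zeta 3 + (a 0 : ℝ) * 1 + (a 2 : ℝ) * (2 / 5 * zeta 2) =
    (a 0 : ℝ) * 1 + (a 1 : ℝ) * zeta 3 + (a 2 : ℝ) * (2 / 5 * zeta 2)
  ring

theorem value_eq {r : ℕ} (t : Fin r → ℝ) (q c : ℤ) (b : Fin r → ℤ) :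
    value t q c b = ∑ j, ((![q, c] : Fin 2 → ℤ) j : ℝ) * (![zeta 3, 2 / 5 * zeta 2] : Fin 2 → ℝ) j +
      ∑ j, (b j : ℝ) * (t j / zeta 2) := by
  have hz : zeta 2 ≠ 0 := Pool.Agent.Q29.Z23.zr2_pos.ne'
  have h4 : zeta 4 = (2 / 5) * zeta 2 ^ 2 := Pool.Agent.Q29.Z23.zr4
  unfold value
  rw [Fin.sum_univ_two, h4, add_div, Finset.sum_div]
  show _ = (q : ℝ) * zeta 3 + (c : ℝ) * (2 / 5 * zeta 2) + _
  congr 1
  · field_simp
  · exact Finset.sum_congr rfl fun j _ => by ring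

theorem part1 (r : ℕ) : ∃ C : ℝ, 0 < C ∧ ∀ (t : Fin r → ℝ) (q c : Fin (r + 1) → ℤ) (b : Fin (r + 1) → Fin r → ℤ),
      Independent q c b → ∀ M : ℝ, 1 ≤ M → (∀ k, |(q k : ℝ)| ≤ M) → (∀ k, |(c k : ℝ)| ≤ M) →
      (∀ k j, |(b k j : ℝ)| ≤ M) → ∀ g : Fin (r + 1) → ℕ, (∀ k, 2 ≤ g k) → ∀ (L : Fin (r + 1) → ℕ) (Λ : ℝ),
      (∀ k, Λ ≤ L k * Real.log (g k)) →
        Λ ≤ 228 * (∑ k, F C (complexity (g k) (value t (q k) (c k) (b k)) (L k)) * Real.log (g k) +
          (r + 1) * Real.log M) := by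
  obtain ⟨c₀, hc₀, hm⟩ := meas'
  obtain ⟨C, hC, h⟩ := Pool.Agent.Q29.DD.prod_digits (![zeta 3, 2 / 5 * zeta 2] : Fin 2 → ℝ) 227 c₀ (by norm_num)
    hc₀ hm r
  refine ⟨C, hC, fun t q c b hli M hM hq hc hb g hg L Λ hΛ => ?_⟩
  have h1 := h (fun j => t j / zeta 2) (fun k => ![q k, c k]) b ?_ M hM (fun k j => by
    fin_cases j
    · exact hq k
    · exact hc k) hb g hg L Λ hΛ
  · refine h1.trans (le_of_eq ?_)
    have e2 : ∀ k, Pool.Agent.Q29.DD.F C (Pool.Agent.Q29.DD.complexity (g k)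
        (∑ j, ((![q k, c k] : Fin 2 → ℤ) j : ℝ) * (![zeta 3, 2 / 5 * zeta 2] : Fin 2 → ℝ) j +
          ∑ j, (b k j : ℝ) * (t j / zeta 2)) (L k)) =
        F C (complexity (g k) (value t (q k) (c k) (b k)) (L k)) := fun k => by
      rw [value_eq]
      rfl
    simp only [e2]
    ring
  · unfold Independent at hli
    rw [Fintype.linearIndependent_iff] at hli ⊢
    intro c' hc'
    refine hli c' ?_
    rw [Prod.ext_iff] at hc'
    obtain ⟨h1, h2⟩ := hc'
    rw [Prod.fst_sum] at h1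
    rw [Prod.snd_sum] at h2
    refine Prod.ext ?_ (Prod.ext ?_ ?_)
    · have h3 := congrFun h1 0
      rw [Finset.sum_apply] at h3
      rw [Prod.fst_sum]
      exact h3
    · have h3 := congrFun h1 1
      rw [Finset.sum_apply] at h3
      rw [Prod.snd_sum, Prod.fst_sum]
      exact h3
    · rw [Prod.snd_sum, Prod.snd_sum]
      exact h2

theorem part2 (r : ℕ) (ε : ℝ) (hε : 0 < ε) : ∃ δ : ℝ, 0 < δ ∧ ∀ (Λ : ℝ), 1 ≤ Λ → ∀ (t : Fin r → ℝ)
      (q c : Fin (r + 1) → ℤ) (b : Fin (r + 1) → Fin r → ℤ), Independent q c b →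
      (∀ k, |(q k : ℝ)| ≤ Real.exp (δ * Λ)) → (∀ k, |(c k : ℝ)| ≤ Real.exp (δ * Λ)) →
      (∀ k j, |(b k j : ℝ)| ≤ Real.exp (δ * Λ)) →
      ∀ g : Fin (r + 1) → ℕ, (∀ k, 2 ≤ g k) → (∀ k, (g k : ℝ) ≤ Real.exp (δ * Λ)) →
        ∃ k, (1 / (228 * (r + 1)) - ε) * (Λ / Real.log (g k)) ≤
          complexity (g k) (value t (q k) (c k) (b k)) ⌊Λ / Real.log (g k)⌋₊ := by
  obtain ⟨C, hC, h⟩ := part1 r
  have hr0 : (0 : ℝ) ≤ r := Nat.cast_nonneg _
  obtain ⟨δ, hδ, h'⟩ := Pool.Agent.Q29.DD.scale (n := r + 1) (228 * (r + 1)) C (228 * (r + 1)) ε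
    (by nlinarith) hC (by positivity) hε
  refine ⟨δ, hδ, fun Λ hΛ t q c b hli hq hc hb g hg hgL => ?_⟩
  refine h' Λ hΛ (fun k => value t (q k) (c k) (b k)) g hg hgL ?_
  intro L a Λ' hΛ' ha
  have h1 := h t q c b hli (Real.exp (δ * Λ)) (Real.one_le_exp (by positivity)) hq hc hb g hg L Λ' hΛ'
  refine h1.trans ?_
  rw [Real.log_exp]
  have h2 : ∑ k, F C (complexity (g k) (value t (q k) (c k) (b k)) (L k)) * Real.log (g k) ≤
      ((r : ℝ) + 1) * a := by
    calc _ ≤ ∑ _k : Fin (r + 1), a := Finset.sum_le_sum fun k _ => ha k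
      _ = _ := by
        rw [Finset.sum_const, Finset.card_univ, Fintype.card_fin, nsmul_eq_mul]
        push_cast
        ring
  nlinarith

/-- A relation as in Q1 gives an integer vector `(q, c, b_1, b_2)` with `q ≠ 0` for which the linear complexity of the
digits of the number `(q ζ(2) ζ(3) + c ζ(4) + b_1 ζ(3) + b_2 ζ(5)) / ζ(2)` is at most `1` in every base, for every
length. -/
theorem of_relation (a b c d : ℚ) (h : zeta 2 * zeta 3 = a * zeta 2 + b * zeta 3 + c * zeta 4 + d * zeta 5) :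
    ∃ (q c' : ℤ) (b' : Fin 2 → ℤ), q ≠ 0 ∧ ∀ g : ℕ, 2 ≤ g → ∀ L : ℕ,
      complexity g (value ![zeta 3, zeta 5] q c' b') L ≤ 1 := by
  have hz : zeta 2 ≠ 0 := Pool.Agent.Q29.Z23.zr2_pos.ne'
  -- a common denominator
  obtain ⟨D, hD, A, B, C', E, hA, hB, hC, hE⟩ : ∃ D : ℤ, D ≠ 0 ∧ ∃ A B C' E : ℤ, (D : ℚ) * a = A ∧ (D : ℚ) * b = B ∧
      (D : ℚ) * c = C' ∧ (D : ℚ) * d = E := by
    refine ⟨a.den * b.den * c.den * d.den, ?_, a.num * b.den * c.den * d.den, a.den * b.num * c.den * d.den,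
      a.den * b.den * c.num * d.den, a.den * b.den * c.den * d.num, ?_, ?_, ?_, ?_⟩
    · have h1 := a.den_nz
      have h2 := b.den_nz
      have h3 := c.den_nz
      have h4 := d.den_nz
      positivity
    · have h1 : (a.den : ℚ) * a = a.num := Rat.den_mul_eq_num a
      push_cast
      linear_combination (b.den * c.den * d.den : ℚ) * h1
    · have h1 : (b.den : ℚ) * b = b.num := Rat.den_mul_eq_num b
      push_cast
      linear_combination (a.den * c.den * d.den : ℚ) * h1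
    · have h1 : (c.den : ℚ) * c = c.num := Rat.den_mul_eq_num c
      push_cast
      linear_combination (a.den * b.den * d.den : ℚ) * h1
    · have h1 : (d.den : ℚ) * d = d.num := Rat.den_mul_eq_num d
      push_cast
      linear_combination (a.den * b.den * c.den : ℚ) * h1
  have hA' : (D : ℝ) * a = A := by exact_mod_cast hA
  have hB' : (D : ℝ) * b = B := by exact_mod_cast hB
  have hC' : (D : ℝ) * c = C' := by exact_mod_cast hC
  have hE' : (D : ℝ) * d = E := by exact_mod_cast hE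
  refine ⟨D, -C', ![-B, -E], hD, fun g hg L => ?_⟩
  have hv : value ![zeta 3, zeta 5] D (-C') ![-B, -E] = A := by
    unfold value
    have e : ∑ j : Fin 2, (((![-B, -E] : Fin 2 → ℤ) j : ℤ) : ℝ) * (![zeta 3, zeta 5] : Fin 2 → ℝ) j =
        -(B : ℝ) * zeta 3 + -(E : ℝ) * zeta 5 := by
      rw [Fin.sum_univ_two]
      simp
    rw [e, div_eq_iff hz, h, Int.cast_neg, ← hA', ← hB', ← hC', ← hE']
    ring
  rw [hv]
  have hd : ∀ i, digit g (A : ℝ) (i + 1) = 0 := by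
    intro i
    unfold digit
    have e : (A : ℝ) * (g : ℝ) ^ (i + 1) = ((A * (g : ℤ) ^ (i + 1) : ℤ) : ℝ) := by push_cast; ring
    rw [e, Int.floor_intCast, pow_succ, ← mul_assoc]
    exact Int.mul_emod_left _ _
  refine Nat.sInf_le ⟨fun _ => 0, fun i hi _ => ?_⟩
  obtain ⟨i', rfl⟩ : ∃ i', i = i' + 1 := ⟨i - 1, by omega⟩
  rw [hd (i' + 1)]
  simp

/-- **The digits of the forms.** (1) For each `r` there is `C` such that for all real `t_1, …, t_r`, all `r + 1` linearly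
independent integer vectors `(q_k, c_k, b_k)` of height at most `M`, all bases `g_k`, all `L_k` and all
`Λ ≤ min L_k log g_k`: `Λ ≤ 228 (∑ F(N_k) log g_k + (r + 1) log M)`, where `N_k` is the linear complexity of the first `L_k`
digits of `(q_k ζ(2) ζ(3) + c_k ζ(4) + ∑ b_kj t_j) / ζ(2)` in base `g_k`. (2) For `ε > 0` there is `δ > 0` such that for all
`Λ ≥ 1`, all `t`, all such vectors of height at most `e^(δ Λ)` and all bases `g_k ≤ e^(δ Λ)` at least one of the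
complexities of the first `⌊Λ / log g_k⌋` digits is at least `(1 / (228 (r + 1)) - ε) Λ / log g_k`. (3) A relation as in Q1
gives a vector with `q ≠ 0`, for `t = (ζ(3), ζ(5))`, with complexities at most `1`. -/
theorem result :
    (∀ r : ℕ, ∃ C : ℝ, 0 < C ∧ ∀ (t : Fin r → ℝ) (q c : Fin (r + 1) → ℤ) (b : Fin (r + 1) → Fin r → ℤ),
      Independent q c b → ∀ M : ℝ, 1 ≤ M → (∀ k, |(q k : ℝ)| ≤ M) → (∀ k, |(c k : ℝ)| ≤ M) →
      (∀ k j, |(b k j : ℝ)| ≤ M) → ∀ g : Fin (r + 1) → ℕ, (∀ k, 2 ≤ g k) → ∀ (L : Fin (r + 1) → ℕ) (Λ : ℝ),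
      (∀ k, Λ ≤ L k * Real.log (g k)) →
        Λ ≤ 228 * (∑ k, F C (complexity (g k) (value t (q k) (c k) (b k)) (L k)) * Real.log (g k) +
          (r + 1) * Real.log M)) ∧
    (∀ (r : ℕ) (ε : ℝ), 0 < ε → ∃ δ : ℝ, 0 < δ ∧ ∀ (Λ : ℝ), 1 ≤ Λ → ∀ (t : Fin r → ℝ)
      (q c : Fin (r + 1) → ℤ) (b : Fin (r + 1) → Fin r → ℤ), Independent q c b →
      (∀ k, |(q k : ℝ)| ≤ Real.exp (δ * Λ)) → (∀ k, |(c k : ℝ)| ≤ Real.exp (δ * Λ)) →
      (∀ k j, |(b k j : ℝ)| ≤ Real.exp (δ * Λ)) →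
      ∀ g : Fin (r + 1) → ℕ, (∀ k, 2 ≤ g k) → (∀ k, (g k : ℝ) ≤ Real.exp (δ * Λ)) →
        ∃ k, (1 / (228 * (r + 1)) - ε) * (Λ / Real.log (g k)) ≤
          complexity (g k) (value t (q k) (c k) (b k)) ⌊Λ / Real.log (g k)⌋₊) ∧
    (∀ a b c d : ℚ, zeta 2 * zeta 3 = a * zeta 2 + b * zeta 3 + c * zeta 4 + d * zeta 5 →
      ∃ (q c' : ℤ) (b' : Fin 2 → ℤ), q ≠ 0 ∧ ∀ g : ℕ, 2 ≤ g → ∀ L : ℕ,
        complexity g (value ![zeta 3, zeta 5] q c' b') L ≤ 1) :=
  ⟨part1, part2, of_relation⟩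

end Pool.Agent.Results.MP_524521_nt.DigitsOfForms
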