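import Mathlib
import Pool.Agent.Q29.EqSub
import Pool.Agent.Q29.Z23

/-!
# The numbers `(q ζ(2) ζ(3) + c ζ(4) + b_1 t_1 + … + b_r t_r) / ζ(2)`: joint distribution of the multiples

A relation `ζ(2) ζ(3) = a ζ(2) + b ζ(3) + c ζ(4) + d ζ(5)` with rational `a, b, c, d` means that the number
`(ζ(2) ζ(3) - b ζ(3) - c ζ(4) - d ζ(5)) / ζ(2)` is rational. Let `t_1, …, t_r` be arbitrary real numbers, for instance
`r = 2` and `t = (ζ(3), ζ(5))`. The integer forms `h = (q, c, b)` with a rational value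
`(q ζ(2) ζ(3) + c ζ(4) + b_1 t_1 + … + b_r t_r) / ζ(2)` lie in a subspace `W₀` of `ℚ ^ 2 × ℚ ^ r` of dimension at most `r`.
We prove a quantitative form at each scale, with a power saving and uniformly in the numbers `t_j`: for all `r`, `s`, `K` and
`A ≥ 1` there are `κ > 0` and `N₀` such that for all `N ≥ N₀` and all real `t_1, …, t_r` there is a subspace `W` of
`ℚ ^ 2 × ℚ ^ r` of dimension at most `r` such that for all integer forms `h_1, …, h_s` of height at most `N ^ κ` without a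
nonzero integer combination in `W` and for all `M` from `N` to `N ^ A`, the multiples of the vector of the values of the `h_i`
by the integers up to `M`, by their `k`-th powers for `k ≤ K` (even with real polynomials of degree less than `k` added), and
by the primes up to `M` in each residue class modulo `d ≤ M ^ κ` are uniformly distributed in the cubes of side `1 / q`,
`q ≤ M ^ κ`, with an error `M ^ (1 - κ)`.

The proof uses the measure of linear independence of `1, ζ(2), ζ(3)` with the exponent `227` (`Pool/Agent/TH120/HM/`),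
elimination (`Pool/Agent/TH647/NR/`), an inverse theorem for the sums of Weyl and a form of the estimate of Vinogradov for the
sums over primes with a power saving from the starting files (`H373R2/NB`, `W110/HV`).
-/

set_option autoImplicit false

namespace Pool.Agent.Results.MP_524521_nt.JointDistribution

open Finset Polynomial

/-- The points `y n ∈ ℝ ^ s`, `n ∈ S`, are uniformly distributed modulo one with error `E` in the cubes of side `1 / q`,
`q ≤ Q`. -/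
def Equi {s : ℕ} (S : Finset ℕ) (y : ℕ → Fin s → ℝ) (Q E : ℝ) : Prop :=
  ∀ q : ℕ, 1 ≤ q → (q : ℝ) ≤ Q → ∀ ρ : Fin s → ℤ, (∀ j, 0 ≤ ρ j ∧ ρ j < q) →
    |((S.filter fun n => ∀ j, (ρ j : ℝ) / q ≤ Int.fract (y n j) ∧ Int.fract (y n j) < (ρ j + 1) / q).card : ℝ) -
      S.card / (q : ℝ) ^ s| ≤ E

/-- The multiples of the vector `x` are uniformly distributed modulo one at the scale `M`, with a power saving, along all
polynomials of degree `k ≤ K` (the points `x n ^ k + R(n)`, `0 ≤ n < M`, `R` a vector of real polynomials of degree less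
than `k`), and along the primes in all residue classes modulo `d ≤ M ^ κ` (the points `x p + β`, `p ≤ M` prime,
`p ≡ r (mod d)`). -/
def Joint (κ : ℝ) (K M : ℕ) {s : ℕ} (x : Fin s → ℝ) : Prop :=
  (∀ k : ℕ, 1 ≤ k → k ≤ K → ∀ R : Fin s → ℝ[X], (∀ j, (R j).degree < k) →
    Equi (range M) (fun n j => x j * (n : ℝ) ^ k + (R j).eval (n : ℝ)) ((M : ℝ) ^ κ) ((M : ℝ) ^ (1 - κ))) ∧
  (∀ d r : ℕ, 1 ≤ d → (d : ℝ) ≤ (M : ℝ) ^ κ → ∀ β : Fin s → ℝ,
    Equi ((range (M + 1)).filter fun p => p.Prime ∧ p ≡ r [MOD d]) (fun p j => x j * p + β j) ((M : ℝ) ^ κ)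
      ((M : ℝ) ^ (1 - κ)))

/-- `ζ(s)` for integers `s ≥ 2` -/
noncomputable def zeta (s : ℕ) : ℝ := ∑' n : ℕ, 1 / ((n : ℝ) + 1) ^ s

/-- the number `(q ζ(2) ζ(3) + c ζ(4) + b_1 t_1 + … + b_r t_r) / ζ(2)` -/
noncomputable def value {r : ℕ} (t : Fin r → ℝ) (q c : ℤ) (b : Fin r → ℤ) : ℝ :=
  (q * (zeta 2 * zeta 3) + c * zeta 4 + ∑ j, (b j : ℝ) * t j) / zeta 2

theorem joint_iff (κ : ℝ) (K M : ℕ) {s : ℕ} (x : Fin s → ℝ) : Joint κ K M x ↔ Pool.Agent.Q29.Eqd.Joint κ K M x :=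
  Iff.rfl

/-- `1, ζ(3), (2/5) ζ(2)` -/
noncomputable def θ' : Fin (2 + 1) → ℝ := ![1, zeta 3, 2 / 5 * zeta 2]

theorem meas' : ∃ c : ℝ, 0 < c ∧ Pool.Agent.W472.AC.Meas θ' 227 c := by
  obtain ⟨c, hc, h⟩ := Pool.Agent.Q29.Z23.meas
  refine ⟨c, hc, fun a ha H hH hb => ?_⟩
  have h1 := h ![a 1, a 0, a 2] (fun h0 => ha (by
    have e0 := congrFun h0 0
    have e1 := congrFun h0 1
    have e2 := congrFun h0 2
    funext i
    fin_cases i
    · exact e1
    · exact e0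
    · exact e2)) H hH (fun j => by
    fin_cases j
    · exact hb 1
    · exact hb 0
    · exact hb 2)
  refine h1.trans (le_of_eq ?_)
  congr 2
  rw [Fin.sum_univ_three, Fin.sum_univ_three]
  show (a 1 : ℝ) * zeta 3 + (a 0 : ℝ) * 1 + (a 2 : ℝ) * (2 / 5 * zeta 2) =
    (a 0 : ℝ) * 1 + (a 1 : ℝ) * zeta 3 + (a 2 : ℝ) * (2 / 5 * zeta 2)
  ring

theorem form_eq {r : ℕ} (t : Fin r → ℝ) (v : (Fin 3 → ℤ) × (Fin r → ℤ)) :
    Pool.Agent.TH647.NR.linr θ' t v =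
      Pool.Agent.Q29.Eqd.lval (![zeta 3, 2 / 5 * zeta 2] : Fin 2 → ℝ) t v := by
  unfold Pool.Agent.TH647.NR.linr Pool.Agent.Q29.Eqd.lval
  rw [Fin.sum_univ_three, Fin.sum_univ_two]
  show (v.1 0 : ℝ) * 1 + (v.1 1 : ℝ) * zeta 3 + (v.1 2 : ℝ) * (2 / 5 * zeta 2) + _ =
    (v.1 0 : ℝ) + ((v.1 1 : ℝ) * zeta 3 + (v.1 2 : ℝ) * (2 / 5 * zeta 2)) + _
  ring

theorem value_eq {r : ℕ} (t : Fin r → ℝ) (q c : ℤ) (b : Fin r → ℤ) :
    value t q c b = ∑ j, ((![q, c] : Fin 2 → ℤ) j : ℝ) * (![zeta 3, 2 / 5 * zeta 2] : Fin 2 → ℝ) j +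
      ∑ j, (b j : ℝ) * (t j / zeta 2) := by
  have hz : zeta 2 ≠ 0 := Pool.Agent.Q29.Z23.zr2_pos.ne'
  have h4 : zeta 4 = (2 / 5) * zeta 2 ^ 2 := Pool.Agent.Q29.Z23.zr4
  unfold value
  rw [Fin.sum_univ_two, h4, add_div, Finset.sum_div]
  show _ = (q : ℝ) * zeta 3 + (c : ℝ) * (2 / 5 * zeta 2) + _
  congr 1
  · field_simp
  · exact Finset.sum_congr rfl fun j _ => by ring

/-- **Theorem.** For all `r`, `s ≥ 1`, `K` and `A ≥ 1` there are `κ > 0` and `N₀` such that for all `N ≥ N₀` and all real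
`t_1, …, t_r` there is a subspace `W` of `ℚ ^ 2 × ℚ ^ r` of dimension at most `r` with: if `h_i = ((q_i, c_i), b_i)`, `i ≤ s`,
are integer vectors of height at most `N ^ κ` and no nonzero integer combination of them lies in `W`, then the vector of the
numbers `(q_i ζ(2) ζ(3) + c_i ζ(4) + ∑ b_ij t_j) / ζ(2)` satisfies `Joint κ K M` for all `N ≤ M ≤ N ^ A`. -/
theorem result (r s K : ℕ) (A : ℝ) (hs : 1 ≤ s) (hA : 1 ≤ A) :
    ∃ κ : ℝ, 0 < κ ∧ ∃ N₀ : ℕ, ∀ N : ℕ, N₀ ≤ N → ∀ t : Fin r → ℝ,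
      ∃ W : Submodule ℚ ((Fin 2 → ℚ) × (Fin r → ℚ)), Module.finrank ℚ W ≤ r ∧
        ∀ (q c : Fin s → ℤ) (b : Fin s → Fin r → ℤ),
          (∀ i, |(q i : ℝ)| ≤ (N : ℝ) ^ κ) → (∀ i, |(c i : ℝ)| ≤ (N : ℝ) ^ κ) →
          (∀ i j, |(b i j : ℝ)| ≤ (N : ℝ) ^ κ) →
          (∀ l : Fin s → ℤ, l ≠ 0 →
            ((![((∑ i, l i * q i : ℤ) : ℚ), ((∑ i, l i * c i : ℤ) : ℚ)], fun j => ((∑ i, l i * b i j : ℤ) : ℚ)) :
              (Fin 2 → ℚ) × (Fin r → ℚ)) ∉ W) →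
          ∀ M : ℕ, N ≤ M → (M : ℝ) ≤ (N : ℝ) ^ A → Joint κ K M (fun i => value t (q i) (c i) (b i)) := by
  obtain ⟨κ, hκ, h⟩ := Pool.Agent.Q29.Eqd.joint_struct ((r : ℝ) + (r + 1) * 227) A (by positivity) hA s hs K
  obtain ⟨c₀, hc₀, hm⟩ := meas'
  obtain ⟨c', hc', h'⟩ := Pool.Agent.TH647.NR.rank_bound _ 227 c₀ hc₀ hm r
  obtain ⟨N₀, hN₀⟩ := h (r := r) (![zeta 3, 2 / 5 * zeta 2] : Fin 2 → ℝ) c' hc' (by
    intro t X hX v hv hvX
    obtain ⟨k, hk⟩ := h' t X hX v hv hvX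
    refine ⟨k, ?_⟩
    rw [form_eq] at hk
    exact hk)
  refine ⟨κ, hκ, N₀, fun N hN t => ?_⟩
  obtain ⟨W, hW, hW2⟩ := hN₀ N hN (fun j => t j / zeta 2)
  refine ⟨W, hW, fun q c b hq hc hb hl M hNM hMA => ?_⟩
  rw [joint_iff]
  have h3 := hW2 (fun i => ![q i, c i]) b (fun i j => by
      fin_cases j
      · exact hq i
      · exact hc i) hb (fun l hl0 => by
    have := hl l hl0
    unfold Pool.Agent.Q29.Eqd.castv
    convert this using 2
    refine Prod.ext ?_ rfl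
    funext j
    fin_cases j <;> rfl) M hNM hMA
  have e : (fun i => value t (q i) (c i) (b i)) = fun i =>
      ∑ j, (((fun i => ![q i, c i]) i : Fin 2 → ℤ) j : ℝ) * (![zeta 3, 2 / 5 * zeta 2] : Fin 2 → ℝ) j +
        ∑ j, (b i j : ℝ) * (t j / zeta 2) := by
    funext i
    exact value_eq t (q i) (c i) (b i)
  rw [e]
  exact h3

end Pool.Agent.Results.MP_524521_nt.JointDistribution
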