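import Mathlib
import Pool.Agent.Q29.Z23

/-!
# Near relations between `ζ(2) ζ(3), ζ(2), ζ(4)` and arbitrary numbers, for instance `ζ(3), ζ(5)`

Let `t_1, …, t_r` be arbitrary real numbers, for instance `r = 2` and `t = (ζ(3), ζ(5))`.

(1) Of any `r + 1` linearly independent integer vectors of norm at most `X` one has
`|q ζ(2) ζ(3) + a ζ(2) + c ζ(4) + b_1 t_1 + … + b_r t_r| ≥ C X ^ (-(228 r + 227))` with `C` independent of the `t_j`.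
So the integer vectors of norm at most `X` for which the form is smaller than this lie in a space of dimension at most `r`;
for the numbers of the question this space has dimension at most two, and for the four numbers without `ζ(5)`, or without
`ζ(3)`, it is a line.

(2) For one number `t`, e.g. `t = ζ(3)` or `t = ζ(5)`, and `w > 455`, the primitive integer vectors with
`|q ζ(2) ζ(3) + a ζ(2) + c ζ(4) + b t| ≤ ‖v‖ ^ (-w)`, `b > 0`, are sparse: at most `log log X / log ρ + O(1)` of them have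
norm at most `X`, for every `ρ < (w - 227) / 228`.

The proof divides by `ζ(2)` and eliminates (`Pool/Agent/TH647/NR/`) with the measure of linear independence of
`1, ζ(2), ζ(3)` with the exponent `227` (`Pool/Agent/TH120/HM/`).
-/

set_option autoImplicit false

namespace Pool.Agent.Results.MP_524521_nt.NearRelations

/-- `ζ(s)` for integers `s ≥ 2` -/
noncomputable def zeta (s : ℕ) : ℝ := ∑' n : ℕ, 1 / ((n : ℝ) + 1) ^ s

/-- `q ζ(2) ζ(3) + a ζ(2) + c ζ(4) + b_1 t_1 + … + b_r t_r` for the vector `v = ((q, a, c), b)` -/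
noncomputable def form {r : ℕ} (t : Fin r → ℝ) (v : (Fin 3 → ℤ) × (Fin r → ℤ)) : ℝ :=
  v.1 0 * (zeta 2 * zeta 3) + v.1 1 * zeta 2 + v.1 2 * zeta 4 + ∑ j, (v.2 j : ℝ) * t j

/-- the primitive integer vectors `v = ((q, a, c), b)` with `b > 0` and
`|q ζ(2) ζ(3) + a ζ(2) + c ζ(4) + b t| ≤ ‖v‖ ^ (-w)` -/
def Near (t w : ℝ) : Set ((Fin 3 → ℤ) × ℤ) :=
  {v | 0 < v.2 ∧ (∀ d : ℤ, (∀ i, d ∣ v.1 i) → d ∣ v.2 → IsUnit d) ∧
    |v.1 0 * (zeta 2 * zeta 3) + v.1 1 * zeta 2 + v.1 2 * zeta 4 + v.2 * t| ≤ ‖v‖ ^ (-w)}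

theorem form_eq {r : ℕ} (t : Fin r → ℝ) (v : (Fin 3 → ℤ) × (Fin r → ℤ)) :
    form t v = zeta 2 * Pool.Agent.TH647.NR.linr Pool.Agent.Q29.Z23.θ (fun j => t j / zeta 2) v := by
  have hz : zeta 2 ≠ 0 := Pool.Agent.Q29.Z23.zr2_pos.ne'
  have h4 : zeta 4 = (2 / 5) * zeta 2 ^ 2 := Pool.Agent.Q29.Z23.zr4
  unfold form Pool.Agent.TH647.NR.linr
  rw [Fin.sum_univ_three, mul_add, Finset.mul_sum, h4]
  congr 1
  · show _ = zeta 2 * ((v.1 0 : ℝ) * zeta 3 + v.1 1 * 1 + v.1 2 * (2 / 5 * zeta 2))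
    ring
  · refine Finset.sum_congr rfl fun j _ => ?_
    field_simp

theorem lin_eq (t : ℝ) (v : (Fin 3 → ℤ) × ℤ) :
    v.1 0 * (zeta 2 * zeta 3) + v.1 1 * zeta 2 + v.1 2 * zeta 4 + v.2 * t =
      zeta 2 * Pool.Agent.TH647.NR.lin Pool.Agent.Q29.Z23.θ (t / zeta 2) v := by
  have hz : zeta 2 ≠ 0 := Pool.Agent.Q29.Z23.zr2_pos.ne'
  have h4 : zeta 4 = (2 / 5) * zeta 2 ^ 2 := Pool.Agent.Q29.Z23.zr4
  unfold Pool.Agent.TH647.NR.lin
  rw [Fin.sum_univ_three, mul_add, h4]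
  congr 1
  · show _ = zeta 2 * ((v.1 0 : ℝ) * zeta 3 + v.1 1 * 1 + v.1 2 * (2 / 5 * zeta 2))
    ring
  · field_simp

theorem le_form (x : ℝ) : |x| ≤ |zeta 2 * x| := by
  have hz : 1 ≤ zeta 2 := Pool.Agent.Q29.Z23.one_le_zr2
  rw [abs_mul, abs_of_pos (by linarith : 0 < zeta 2)]
  nlinarith [abs_nonneg x]

theorem part1 (r : ℕ) : ∃ C : ℝ, 0 < C ∧ ∀ (t : Fin r → ℝ) (X : ℝ), 1 ≤ X →
      ∀ v : Fin (r + 1) → (Fin 3 → ℤ) × (Fin r → ℤ), LinearIndependent ℤ v → (∀ k, ‖v k‖ ≤ X) →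
        ∃ k, C * X ^ (-(228 * (r : ℝ) + 227)) ≤ |form t (v k)| := by
  obtain ⟨c, hc, h⟩ := Pool.Agent.Q29.Z23.meas
  obtain ⟨c', hc', h'⟩ := Pool.Agent.TH647.NR.rank_bound _ 227 c hc h r
  refine ⟨c', hc', fun t X hX v hv hvX => ?_⟩
  obtain ⟨k, hk⟩ := h' (fun j => t j / zeta 2) X hX v hv hvX
  refine ⟨k, ?_⟩
  rw [form_eq]
  refine le_trans ?_ (hk.trans (le_form _))
  apply le_of_eq
  congr 2
  ring

theorem part2 (t w ρ : ℝ) (hw : 455 < w) (hρ : 1 < ρ) (hρw : ρ < (w - 227) / 228) : ∃ C : ℝ, ∀ X : ℝ, 3 ≤ X →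
      {v ∈ Near t w | ‖v‖ ≤ X}.Finite ∧
      ({v ∈ Near t w | ‖v‖ ≤ X}.ncard : ℝ) ≤ Real.log (Real.log X) / Real.log ρ + C := by
  obtain ⟨c, hc, h⟩ := Pool.Agent.Q29.Z23.meas
  obtain ⟨C, hC⟩ := Pool.Agent.TH647.NR.sparse _ 227 c (by norm_num) hc h (t / zeta 2) w ρ (by linarith) hρ (by
    norm_num
    exact hρw)
  refine ⟨C, fun X hX => ?_⟩
  obtain ⟨h1, h2⟩ := hC X hX
  have hsub : {v ∈ Near t w | ‖v‖ ≤ X} ⊆
      {v ∈ {v : (Fin (2 + 1) → ℤ) × ℤ | 0 < v.2 ∧ Pool.Agent.TH647.NR.Prim v ∧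
        |Pool.Agent.TH647.NR.lin Pool.Agent.Q29.Z23.θ (t / zeta 2) v| ≤ ‖v‖ ^ (-w)} | ‖v‖ ≤ X} := by
    rintro v ⟨⟨h3, h4, h5⟩, h6⟩
    refine ⟨⟨h3, h4, ?_⟩, h6⟩
    rw [lin_eq] at h5
    exact (le_form _).trans h5
  refine ⟨h1.subset hsub, le_trans ?_ h2⟩
  exact_mod_cast Set.ncard_le_ncard hsub h1

/-- **Theorem.** (1) For every `r` there is `C > 0` such that for all real `t_1, …, t_r` and `X ≥ 1`: of any `r + 1` linearly
independent integer vectors `((q, a, c), b)` of norm at most `X` one has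
`|q ζ(2) ζ(3) + a ζ(2) + c ζ(4) + ∑ b_j t_j| ≥ C X ^ (-(228 r + 227))`.
(2) For all real `t`, `w > 455` and `1 < ρ < (w - 227) / 228` the number of elements of `Near t w` of norm at most `X` is at
most `log log X / log ρ + C` for `X ≥ 3`. -/
theorem result :
    (∀ r : ℕ, ∃ C : ℝ, 0 < C ∧ ∀ (t : Fin r → ℝ) (X : ℝ), 1 ≤ X →
      ∀ v : Fin (r + 1) → (Fin 3 → ℤ) × (Fin r → ℤ), LinearIndependent ℤ v → (∀ k, ‖v k‖ ≤ X) →
        ∃ k, C * X ^ (-(228 * (r : ℝ) + 227)) ≤ |form t (v k)|) ∧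
    (∀ t w ρ : ℝ, 455 < w → 1 < ρ → ρ < (w - 227) / 228 → ∃ C : ℝ, ∀ X : ℝ, 3 ≤ X →
      {v ∈ Near t w | ‖v‖ ≤ X}.Finite ∧
      ({v ∈ Near t w | ‖v‖ ≤ X}.ncard : ℝ) ≤ Real.log (Real.log X) / Real.log ρ + C) :=
  ⟨part1, part2⟩

end Pool.Agent.Results.MP_524521_nt.NearRelations
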