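import Pool.Agent.TH120.HM.Cor

/-!
# `ζ(2)ζ(3)` and the rational span of `ζ(2), ..., ζ(5)`: the plane of `ζ(2), ζ(4)`

`ζ(2)ζ(3)` is not in the rational span of `ζ(2), ζ(4)`, with a lower bound for every integer linear form in
`ζ(2)ζ(3), ζ(2), ζ(4)`; and a relation `ζ(2)ζ(3) = a ζ(2) + b ζ(3) + c ζ(4)` (the case `d = 0` of the question)
must have `b ≠ 0` and `5 a + 2 b c ≠ 0`.
-/

set_option autoImplicit false

namespace Pool.Agent.Results.MP_524521_nt.NoRelationInZetaTwoFour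

open Pool.Agent.H337R2 in
theorem zr4 : zr 4 = (2 / 5) * zr 2 ^ 2 := by
  have h1 := (hasSum_nat_add_iff' 1).2 hasSum_zeta_four
  rw [Finset.sum_range_one] at h1
  simp only [Nat.cast_zero, ne_eq, OfNat.ofNat_ne_zero, not_false_eq_true, zero_pow, div_zero, sub_zero] at h1
  have h2 : HasSum (fun n : ℕ => 1 / ((n : ℝ) + 1) ^ 4) (Real.pi ^ 4 / 90) := by
    refine h1.congr_fun fun n => ?_
    push_cast
    rfl
  have h3 : zr 4 = Real.pi ^ 4 / 90 := h2.tsum_eq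
  rw [h3, Pool.Agent.LZ.Z2_value]
  ring

open Pool.Agent.H337R2 in
theorem part1 : ∃ κ : ℝ, 0 < κ ∧ ∀ q a c : ℤ, ∀ H : ℝ, 1 ≤ H → ¬ (q = 0 ∧ a = 0 ∧ c = 0) →
    |(q : ℝ)| ≤ H → |(c : ℝ)| ≤ H →
    κ * H ^ (-227 : ℝ) ≤ |(q : ℝ) * (zr 2 * zr 3) + a * zr 2 + c * zr 4| := by
  obtain ⟨k, hk, h⟩ := Pool.Agent.TH120.HM.measure_all
  have hz : 0 < zr 2 := by
    rw [Pool.Agent.LZ.Z2_value]
    positivity
  refine ⟨zr 2 / 5 * (k * 5 ^ (-227 : ℝ)), by positivity, fun q a c H hH h0 hq hc => ?_⟩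
  have h1 := h (5 * a) (2 * c) (5 * q) (5 * H) (by linarith) (fun hh => h0 ⟨by omega, by omega, by omega⟩)
    (by
      push_cast
      rw [abs_mul, abs_of_pos (by norm_num : (0 : ℝ) < 2)]
      linarith [abs_nonneg (c : ℝ)])
    (by
      push_cast
      rw [abs_mul, abs_of_pos (by norm_num : (0 : ℝ) < 5)]
      linarith)
  have e : (q : ℝ) * (zr 2 * zr 3) + a * zr 2 + c * zr 4
      = zr 2 / 5 * (((5 * a : ℤ) : ℝ) + ((2 * c : ℤ) : ℝ) * zr 2 + ((5 * q : ℤ) : ℝ) * zr 3) := by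
    rw [zr4]
    push_cast
    ring
  rw [e, abs_mul, abs_of_pos (by positivity : 0 < zr 2 / 5)]
  rw [Real.mul_rpow (by norm_num) (by linarith)] at h1
  calc zr 2 / 5 * (k * 5 ^ (-227 : ℝ)) * H ^ (-227 : ℝ)
      = zr 2 / 5 * (k * (5 ^ (-227 : ℝ) * H ^ (-227 : ℝ))) := by ring
    _ ≤ _ := mul_le_mul_of_nonneg_left h1 (by positivity)

open Pool.Agent.H337R2 in
/-- no rational relation between `1, ζ(2), ζ(3)` -/
theorem indep (x y z : ℚ) (h : (x : ℝ) + y * zr 2 + z * zr 3 = 0) : x = 0 ∧ y = 0 ∧ z = 0 := by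
  have hl := Pool.Agent.LZ.Z3_linind
  rw [Fintype.linearIndependent_iff] at hl
  have h1 := hl ![x, y, z] (by
    rw [Fin.sum_univ_three]
    simp only [Matrix.cons_val_zero, Matrix.cons_val_one, Matrix.cons_val, Rat.smul_def]
    linarith)
  exact ⟨by simpa using h1 0, by simpa using h1 1, by simpa using h1 2⟩

open Pool.Agent.H337R2 in
theorem part2 (a b c d : ℚ)
    (h : zr 2 * zr 3 = (a : ℝ) * zr 2 + b * zr 3 + c * zr 4 + d * zr 5) (hd : d = 0) :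
    b ≠ 0 ∧ 5 * a + 2 * b * c ≠ 0 := by
  subst hd
  have hz : 0 < zr 2 := by
    rw [Pool.Agent.LZ.Z2_value]
    positivity
  rw [zr4] at h
  constructor
  · intro hb
    subst hb
    have h1 : zr 2 * (zr 3 - a - (2 * c / 5) * zr 2) = 0 := by
      push_cast at h
      linear_combination h
    have h2 := (mul_eq_zero.1 h1).resolve_left hz.ne'
    have h3 := indep (-a) (-(2 * c / 5)) 1 (by push_cast; linear_combination h2)
    exact absurd h3.2.2 one_ne_zero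
  · intro hab
    have hab' : (5 : ℝ) * a + 2 * b * c = 0 := by exact_mod_cast hab
    have h1 : (zr 2 - b) * (zr 3 - (2 * c / 5) * zr 2) = 0 := by
      push_cast at h
      linear_combination h + (zr 2 / 5) * hab'
    rcases mul_eq_zero.1 h1 with h2 | h2
    · have h3 := indep (-b) 1 0 (by push_cast; linear_combination h2)
      exact absurd h3.2.1 one_ne_zero
    · have h3 := indep 0 (-(2 * c / 5)) 1 (by push_cast; linear_combination h2)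
      exact absurd h3.2.2 one_ne_zero

/-- Let `ζ(s) = ∑_{n ≥ 1} n^{-s}`.
(1) `ζ(2)ζ(3)` is not a rational combination of `ζ(2)` and `ζ(4)`, quantitatively: there is `κ > 0` such that
`|q ζ(2)ζ(3) + a ζ(2) + c ζ(4)| ≥ κ H^{-227}` for all integers `q, a, c`, not all zero, with `|q|, |c| ≤ H`.
(2) If `ζ(2)ζ(3) = a ζ(2) + b ζ(3) + c ζ(4) + d ζ(5)` with rational `a, b, c, d` and `d = 0`, then `b ≠ 0` and
`5 a + 2 b c ≠ 0`. -/
theorem result :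
    (∃ κ : ℝ, 0 < κ ∧ ∀ q a c : ℤ, ∀ H : ℝ, 1 ≤ H → ¬ (q = 0 ∧ a = 0 ∧ c = 0) →
      |(q : ℝ)| ≤ H → |(c : ℝ)| ≤ H →
      κ * H ^ (-227 : ℝ) ≤ |(q : ℝ) * ((∑' n : ℕ, 1 / ((n : ℝ) + 1) ^ 2) * (∑' n : ℕ, 1 / ((n : ℝ) + 1) ^ 3))
        + a * (∑' n : ℕ, 1 / ((n : ℝ) + 1) ^ 2) + c * (∑' n : ℕ, 1 / ((n : ℝ) + 1) ^ 4)|) ∧
    (∀ a b c d : ℚ,
      (∑' n : ℕ, 1 / ((n : ℝ) + 1) ^ 2) * (∑' n : ℕ, 1 / ((n : ℝ) + 1) ^ 3) =
        (a : ℝ) * (∑' n : ℕ, 1 / ((n : ℝ) + 1) ^ 2) + b * (∑' n : ℕ, 1 / ((n : ℝ) + 1) ^ 3)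
          + c * (∑' n : ℕ, 1 / ((n : ℝ) + 1) ^ 4) + d * (∑' n : ℕ, 1 / ((n : ℝ) + 1) ^ 5) →
      d = 0 → b ≠ 0 ∧ 5 * a + 2 * b * c ≠ 0) :=
  ⟨part1, part2⟩

end Pool.Agent.Results.MP_524521_nt.NoRelationInZetaTwoFour
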